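import Pool.Agent.H43.PS.Targets

namespace H43.PS

open Matrix Finset

theorem GRM_pow {κ : Type} [Fintype κ] [DecidableEq κ] (U A : Matrix κ κ ℝ) (a : κ → ℝ)
    (h1 : Uᵀ * U = 1) (h2 : U * Uᵀ = 1) (hA : A = U * diagonal a * Uᵀ) (k : ℕ) :
    (A ^ k).trace = ∑ i, a i ^ k := by
  have h3 : A ^ k = U * diagonal a ^ k * Uᵀ := by
    induction k with
    | zero => rw [pow_zero, pow_zero, mul_one, h2]
    | succ k ih =>
      rw [pow_succ, ih, hA, pow_succ]
      calc U * diagonal a ^ k * Uᵀ * (U * diagonal a * Uᵀ)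
          = U * diagonal a ^ k * (Uᵀ * U) * diagonal a * Uᵀ := by noncomm_ring
        _ = U * (diagonal a ^ k * diagonal a) * Uᵀ := by rw [h1]; noncomm_ring
  rw [h3, Matrix.trace_mul_comm, ← mul_assoc, h1, one_mul, Matrix.diagonal_pow,
    Matrix.trace_diagonal]
  rfl

theorem GRM_comm {κ ν : Type} [Fintype κ] [DecidableEq κ] [Fintype ν] [DecidableEq ν]
    (X : Matrix κ ν ℝ) (k : ℕ) : Xᵀ * (X * Xᵀ) ^ k = (Xᵀ * X) ^ k * Xᵀ := by
  induction k with
  | zero => simp
  | succ k ih =>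
    rw [pow_succ, ← Matrix.mul_assoc, ih, pow_succ]
    simp only [Matrix.mul_assoc]

theorem GRM_trace {κ ν : Type} [Fintype κ] [DecidableEq κ] [Fintype ν] [DecidableEq ν]
    (X : Matrix κ ν ℝ) (k : ℕ) : ((Xᵀ * X) ^ (k + 1)).trace = ((X * Xᵀ) ^ (k + 1)).trace := by
  rw [pow_succ, ← Matrix.mul_assoc, ← GRM_comm, Matrix.trace_mul_comm, ← Matrix.mul_assoc,
    ← pow_succ']

theorem GRM (hUNI : T_UNI) (hSPC : T_SPC) : T_GRM := by
  classical
  have _ := hUNI
  intro κ ν _ _ _ _ X f hf0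
  have hA : (Xᵀ * X).IsHermitian := by
    have := Matrix.isHermitian_conjTranspose_mul_self X
    rwa [Matrix.conjTranspose_eq_transpose_of_trivial] at this
  have hB : (X * Xᵀ).IsHermitian := by
    have := Matrix.isHermitian_mul_conjTranspose_self X
    rwa [Matrix.conjTranspose_eq_transpose_of_trivial] at this
  obtain ⟨U, a, hU1, hU2, hUA, _, hfa⟩ := hSPC ν _ hA
  obtain ⟨V, b, hV1, hV2, hVB, _, hfb⟩ := hSPC κ _ hB
  rw [(hfa f).2, (hfb f).2]
  set s : Finset ℝ := univ.image a ∪ univ.image b with hs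
  set P : Polynomial ℝ := Lagrange.interpolate s id (fun t => f t / t) with hP
  have hev : ∀ t ∈ s, f t = t * P.eval t := by
    intro t ht
    have h1 : P.eval t = f t / t := by
      exact Lagrange.eval_interpolate_at_node (fun t => f t / t)
        (Function.injective_id.injOn : Set.InjOn (id : ℝ → ℝ) s) ht
    rw [h1]
    by_cases h0 : t = 0
    · rw [h0, hf0]; simp
    · field_simp
  have key : ∀ (ρ : Type) [Fintype ρ] (c : ρ → ℝ), (∀ i, c i ∈ s) →
      ∑ i, f (c i) = ∑ k ∈ range (P.natDegree + 1), P.coeff k * ∑ i, c i ^ (k + 1) := by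
    intro ρ _ c hc
    simp only [Finset.mul_sum]
    rw [Finset.sum_comm]
    refine Finset.sum_congr rfl fun i _ => ?_
    rw [hev _ (hc i), Polynomial.eval_eq_sum_range, Finset.mul_sum]
    refine Finset.sum_congr rfl fun k _ => ?_
    ring
  rw [key ν a (fun i => mem_union_left _ (mem_image_of_mem a (mem_univ i))),
    key κ b (fun i => mem_union_right _ (mem_image_of_mem b (mem_univ i)))]
  refine Finset.sum_congr rfl fun k _ => ?_
  rw [← GRM_pow U _ a hU1 hU2 hUA, ← GRM_pow V _ b hV1 hV2 hVB, GRM_trace]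

end H43.PS
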