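import Pool.Agent.H43.PS.Targets

namespace H43.PS

open Matrix Finset

theorem PM_psd {κ : Type} [Fintype κ] [DecidableEq κ] (U : Matrix κ κ ℝ) (d : κ → ℝ)
    (hd : ∀ i, 0 ≤ d i) : (U * diagonal d * Uᵀ).PosSemidef := by
  have h1 : (diagonal d).PosSemidef := Matrix.PosSemidef.diagonal hd
  have h2 := h1.mul_mul_conjTranspose_same U
  rwa [Matrix.conjTranspose_eq_transpose_of_trivial] at h2

theorem PM (hUNI : T_UNI) (hSPC : T_SPC) : T_PM := by
  intro κ _ _ E hE
  obtain ⟨U, a, hU1, hU2, hA, _, hf⟩ := hSPC κ E hE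
  refine ⟨U * diagonal (fun i => max (a i) 0) * Uᵀ, U * diagonal (fun i => max (-a i) 0) * Uᵀ,
    PM_psd U _ fun i => le_max_right _ _, PM_psd U _ fun i => le_max_right _ _, ?_, ?_⟩
  · rw [← sub_mul, ← mul_sub, Matrix.diagonal_sub, hA]
    congr 3
    ext i
    rcases le_total 0 (a i) with h | h
    · rw [max_eq_left h, max_eq_right (by linarith)]; ring
    · rw [max_eq_right h, max_eq_left (by linarith)]; ring
  · rw [(hUNI κ U _ _ hU1 rfl _).2, (hUNI κ U _ _ hU1 rfl _).2, (hf _).2,
      ← Finset.sum_add_distrib]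
    refine Finset.sum_congr rfl fun i _ => ?_
    rcases le_total 0 (a i) with h | h
    · rw [max_eq_left h, max_eq_right (by linarith), abs_of_nonneg h]; simp
    · rw [max_eq_right h, max_eq_left (by linarith), abs_of_nonpos h]; simp

end H43.PS
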